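import Mathlib

set_option autoImplicit false

namespace Pool.Agent.Q110.StrongCol

variable {n N : ℕ}

/-- Interval colourings at two times: the colour is monotone in the position. -/
def Mono2 (a b : Fin n → Fin N) (p q : ℝ) : Prop :=
  ∀ v w : Fin n, (v : ℝ) + p ≤ (w : ℝ) + q → a v ≤ b w

/-- All the facts used about two colourings `a` (time `p`) and `b` (time `q`), `p ≤ q < p + 1`. -/
structure Pair (t : ℕ) (a b : Fin n → Fin N) (A B : Finset (Fin n)) : Prop where
  le : ∀ v : Fin n, a v ≤ b v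
  step : ∀ v w : Fin n, v < w → b v ≤ a w
  ca : (A.image a).card ≤ t
  cb : (B.image b).card ≤ t
  int : t ≤ (A ∩ B).card

theorem Pair.lt {t : ℕ} {a b : Fin n → Fin N} {A B : Finset (Fin n)} (h : Pair t a b A B)
    (hd : Disjoint (A.image a) (B.image b)) {v : Fin n} (hv : v ∈ A ∩ B) : a v < b v := by
  refine lt_of_le_of_ne (h.le v) fun he => ?_
  rw [Finset.mem_inter] at hv
  refine Finset.disjoint_left.mp hd (Finset.mem_image_of_mem a hv.1) ?_
  rw [he]; exact Finset.mem_image_of_mem b hv.2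

theorem Pair.last {t : ℕ} {a b : Fin n → Fin N} {A B : Finset (Fin n)} (h : Pair t a b A B)
    (hd : Disjoint (A.image a) (B.image b)) {v w : Fin n} (hv : v ∈ A ∩ B) (hw : v < w) :
    a v < a w := lt_of_lt_of_le (h.lt hd hv) (h.step v w hw)

theorem Pair.first {t : ℕ} {a b : Fin n → Fin N} {A B : Finset (Fin n)} (h : Pair t a b A B)
    (hd : Disjoint (A.image a) (B.image b)) {v w : Fin n} (hv : v ∈ A ∩ B) (hw : w < v) :
    b w < b v := lt_of_le_of_lt (h.step w v hw) (h.lt hd hv)

theorem Pair.injA {t : ℕ} {a b : Fin n → Fin N} {A B : Finset (Fin n)} (h : Pair t a b A B)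
    (hd : Disjoint (A.image a) (B.image b)) : Set.InjOn a (A ∩ B : Finset (Fin n)) := by
  intro v hv w hw he
  rcases lt_trichotomy v w with hlt | heq | hlt
  · exact absurd he (h.last hd hv hlt).ne
  · exact heq
  · exact absurd he.symm (h.last hd hw hlt).ne

theorem Pair.injB {t : ℕ} {a b : Fin n → Fin N} {A B : Finset (Fin n)} (h : Pair t a b A B)
    (hd : Disjoint (A.image a) (B.image b)) : Set.InjOn b (A ∩ B : Finset (Fin n)) := by
  intro v hv w hw he
  rcases lt_trichotomy v w with hlt | heq | hlt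
  · exact absurd he (h.first hd hw hlt).ne
  · exact heq
  · exact absurd he.symm (h.first hd hv hlt).ne

theorem Pair.imA {t : ℕ} {a b : Fin n → Fin N} {A B : Finset (Fin n)} (h : Pair t a b A B)
    (hd : Disjoint (A.image a) (B.image b)) : (A ∩ B).image a = A.image a := by
  apply Finset.eq_of_subset_of_card_le (Finset.image_subset_image Finset.inter_subset_left)
  rw [Finset.card_image_of_injOn (h.injA hd)]
  exact h.ca.trans h.int

theorem Pair.imB {t : ℕ} {a b : Fin n → Fin N} {A B : Finset (Fin n)} (h : Pair t a b A B)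
    (hd : Disjoint (A.image a) (B.image b)) : (A ∩ B).image b = B.image b := by
  apply Finset.eq_of_subset_of_card_le (Finset.image_subset_image Finset.inter_subset_right)
  rw [Finset.card_image_of_injOn (h.injB hd)]
  exact h.cb.trans h.int

theorem Pair.card {t : ℕ} {a b : Fin n → Fin N} {A B : Finset (Fin n)} (h : Pair t a b A B)
    (hd : Disjoint (A.image a) (B.image b)) : (A ∩ B).card ≤ t := by
  rw [← Finset.card_image_of_injOn (h.injA hd), h.imA hd]
  exact h.ca

theorem Pair.exA {t : ℕ} {a b : Fin n → Fin N} {A B : Finset (Fin n)} (h : Pair t a b A B)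
    (hd : Disjoint (A.image a) (B.image b)) {j : Fin N} (hj : j ∈ A.image a) :
    ∃ v ∈ A ∩ B, a v = j := by
  rw [← h.imA hd] at hj
  exact Finset.mem_image.mp hj

theorem Pair.exB {t : ℕ} {a b : Fin n → Fin N} {A B : Finset (Fin n)} (h : Pair t a b A B)
    (hd : Disjoint (A.image a) (B.image b)) {j : Fin N} (hj : j ∈ B.image b) :
    ∃ v ∈ A ∩ B, b v = j := by
  rw [← h.imB hd] at hj
  exact Finset.mem_image.mp hj

/-- No three pairwise disjoint colour sets. -/
theorem no_three {t : ℕ} {a b c : Fin n → Fin N} {A B C : Finset (Fin n)}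
    (hab : Pair t a b A B) (hbc : Pair t b c B C) (hac : Pair t a c A C)
    (dab : Disjoint (A.image a) (B.image b)) (dbc : Disjoint (B.image b) (C.image c))
    (dac : Disjoint (A.image a) (C.image c)) (hB : t < B.card) : False := by
  have key : B ⊆ A ∩ B := by
    intro v hv
    have hvb : b v ∈ B.image b := Finset.mem_image_of_mem b hv
    obtain ⟨x, hx, hbx⟩ := hab.exB dab hvb
    obtain ⟨y, hy, hby⟩ := hbc.exA dbc hvb
    have hcy : c y ∈ C.image c := Finset.mem_image_of_mem c (Finset.mem_inter.mp hy).2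
    obtain ⟨z, hz, hcz⟩ := hac.exB dac hcy
    have hyz : y = z := by
      rcases lt_trichotomy y z with hlt | heq | hlt
      · exact absurd hcz.symm (hac.first dac hz hlt).ne
      · exact heq
      · exact absurd hcz (hbc.first dbc hy hlt).ne
    have hyA : y ∈ A := by rw [hyz]; exact (Finset.mem_inter.mp hz).1
    have hyAB : y ∈ A ∩ B := Finset.mem_inter.mpr ⟨hyA, (Finset.mem_inter.mp hy).1⟩
    have hxy : x = y := hab.injB dab hx hyAB (hbx.trans hby.symm)
    have hvx : v = x := by
      rcases lt_trichotomy v x with hlt | heq | hlt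
      · exact absurd hbx.symm (hab.first dab hx hlt).ne
      · exact heq
      · rw [hxy] at hlt
        exact absurd hby (hbc.last dbc hy hlt).ne
    rw [hvx, hxy]; exact hyAB
  have h1 := Finset.card_le_card key
  have h2 := hab.card dab
  omega

/-- The colour sets disjoint from the earliest one have a common element. -/
theorem common {t : ℕ} {ι : Type*} (D : Finset ι) (τ : ι → ℝ) (b : ι → Fin n → Fin N)
    (E : ι → Finset (Fin n)) (a : Fin n → Fin N) (A : Finset (Fin n))
    (hE : ∀ i ∈ D, t < (E i).card)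
    (ha : ∀ i ∈ D, Pair t a (b i) A (E i))
    (hd : ∀ i ∈ D, Disjoint (A.image a) ((E i).image (b i)))
    (hb : ∀ i ∈ D, ∀ j ∈ D, τ i ≤ τ j → Pair t (b i) (b j) (E i) (E j)) (hD : D.Nonempty) :
    ∃ J : Fin N, ∀ i ∈ D, J ∈ (E i).image (b i) := by
  obtain ⟨i1, hi1, hmin⟩ := D.exists_min_image τ hD
  obtain ⟨i2, hi2, hmax⟩ := D.exists_max_image τ hD
  have h12 : ¬ Disjoint ((E i1).image (b i1)) ((E i2).image (b i2)) := by
    intro hdis
    exact no_three (ha i1 hi1) (hb i1 hi1 i2 hi2 (hmin i2 hi2)) (ha i2 hi2) (hd i1 hi1) hdis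
      (hd i2 hi2) (hE i1 hi1)
  obtain ⟨J, hJ1, hJ2⟩ := Finset.not_disjoint_iff.mp h12
  refine ⟨J, fun i hi => ?_⟩
  obtain ⟨v, hv, hbv⟩ := (ha i1 hi1).exB (hd i1 hi1) hJ1
  obtain ⟨w, hw, hbw⟩ := (ha i2 hi2).exB (hd i2 hi2) hJ2
  have hvw : v = w := by
    rcases lt_trichotomy v w with hlt | heq | hlt
    · have h1 := (ha i1 hi1).step v w hlt
      have h2 := (ha i2 hi2).lt (hd i2 hi2) hw
      rw [hbv] at h1; rw [hbw] at h2
      exact absurd (lt_of_le_of_lt h1 h2) (lt_irrefl _)
    · exact heq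
    · have h1 := (ha i2 hi2).step w v hlt
      have h2 := (ha i1 hi1).lt (hd i1 hi1) hv
      rw [hbw] at h1; rw [hbv] at h2
      exact absurd (lt_of_le_of_lt h1 h2) (lt_irrefl _)
  have h1 : b i1 v ≤ b i v := (hb i1 hi1 i hi (hmin i hi)).le v
  have h2 : b i v ≤ b i2 v := (hb i hi i2 hi2 (hmax i hi)).le v
  have hbi : b i v = J := by
    rw [hbv] at h1; rw [hvw, hbw, ← hvw] at h2
    exact le_antisymm h2 h1
  have hav : a v ∈ A.image a := Finset.mem_image_of_mem a (Finset.mem_inter.mp hv).1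
  obtain ⟨u, hu, hau⟩ := (ha i hi).exA (hd i hi) hav
  have huv : u = v := by
    rcases lt_trichotomy u v with hlt | heq | hlt
    · exact absurd hau ((ha i hi).last (hd i hi) hu hlt).ne
    · exact heq
    · exact absurd hau.symm ((ha i1 hi1).last (hd i1 hi1) hv hlt).ne
  rw [← hbi]
  apply Finset.mem_image_of_mem
  rw [← huv]; exact (Finset.mem_inter.mp hu).2

/-- The weight count. -/
theorem count {t : ℕ} (ht : 2 ≤ t) {ι : Type*} [DecidableEq ι] (T : Finset ι) (m : ι → ℝ)
    (I : ι → Finset (Fin N))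
    (γ : ℝ) (hγ : 0 < γ) (hm : ∀ i ∈ T, 0 < m i) (hI : ∀ i ∈ T, (I i).card ≤ t)
    (hsum : ∀ j : Fin N, ∑ i ∈ T, (if j ∈ I i then m i else 0) = γ)
    (a : ι) (ha : a ∈ T) (hne : (I a).Nonempty)
    (hD : (∃ i ∈ T, Disjoint (I a) (I i)) →
      ∃ J : Fin N, ∀ i ∈ T, Disjoint (I a) (I i) → J ∈ I i) : N < t * (t + 1) := by
  have htot : (N : ℝ) * γ ≤ t * ∑ i ∈ T, m i := by
    have h1 : ∑ j : Fin N, ∑ i ∈ T, (if j ∈ I i then m i else 0) = (N : ℝ) * γ := by
      rw [Finset.sum_congr rfl (fun j _ => hsum j)]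
      simp
    rw [← h1, Finset.sum_comm, Finset.mul_sum]
    apply Finset.sum_le_sum
    intro i hi
    rw [← Finset.sum_filter, Finset.sum_const, nsmul_eq_mul]
    apply mul_le_mul_of_nonneg_right _ (hm i hi).le
    have : (Finset.univ.filter (fun j => j ∈ I i)) = I i := by ext; simp
    rw [this]
    exact_mod_cast hI i hi
  have hA : ∑ i ∈ T, m i * ((I a ∩ I i).card : ℝ) = (I a).card * γ := by
    have h1 : ∑ j ∈ I a, ∑ i ∈ T, (if j ∈ I i then m i else 0) = ((I a).card : ℝ) * γ := by
      rw [Finset.sum_congr rfl (fun j _ => hsum j)]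
      simp
    rw [← h1, Finset.sum_comm]
    apply Finset.sum_congr rfl
    intro i hi
    rw [← Finset.sum_filter, Finset.sum_const, nsmul_eq_mul, mul_comm]
    congr 2
  have hpos : 1 ≤ (I a).card := hne.card_pos
  have hma := hm a ha
  -- the extra element
  have hJ : ∃ w : ι → ℝ, (∀ i ∈ T, 0 ≤ w i) ∧ (∀ i ∈ T, Disjoint (I a) (I i) → 1 ≤ w i) ∧
      ∑ i ∈ T, m i * w i ≤ γ := by
    by_cases hex : ∃ i ∈ T, Disjoint (I a) (I i)
    · obtain ⟨J, hJ⟩ := hD hex
      refine ⟨fun i => if J ∈ I i then 1 else 0, ?_, ?_, ?_⟩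
      · intro i _; dsimp only; split_ifs <;> norm_num
      · intro i hi hdi; simp [hJ i hi hdi]
      · rw [← hsum J]
        apply Finset.sum_le_sum
        intro i _
        dsimp only
        split_ifs <;> simp
    · push Not at hex
      refine ⟨fun _ => 0, ?_, ?_, ?_⟩
      · intro i _; exact le_refl _
      · intro i hi hdi; exact absurd hdi (hex i hi)
      · simp [hγ.le]
  obtain ⟨w, hw0, hw1, hws⟩ := hJ
  have hmain : ∑ i ∈ T, m i + m a * ((I a).card - 1) ≤ (I a).card * γ + γ := by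
    have h1 : ∑ i ∈ T, m i + m a * (((I a).card : ℝ) - 1) =
        ∑ i ∈ T, (m i + if i = a then m i * (((I a).card : ℝ) - 1) else 0) := by
      rw [Finset.sum_add_distrib, Finset.sum_ite_eq' T a, if_pos ha]
    rw [h1, ← hA]
    refine le_trans ?_ (add_le_add_right hws _)
    rw [← Finset.sum_add_distrib]
    apply Finset.sum_le_sum
    intro i hi
    have hmi := hm i hi
    have hwi := hw0 i hi
    by_cases hia : i = a
    · subst hia
      rw [if_pos rfl, Finset.inter_self]
      nlinarith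
    · rw [if_neg hia]
      by_cases hdi : Disjoint (I a) (I i)
      · have := hw1 i hi hdi
        have h0 : (0 : ℝ) ≤ ((I a ∩ I i).card : ℝ) := by positivity
        nlinarith [mul_nonneg hmi.le h0]
      · have h2 : 1 ≤ (I a ∩ I i).card := by
          obtain ⟨j, hj1, hj2⟩ := Finset.not_disjoint_iff.mp hdi
          exact Finset.card_pos.mpr ⟨j, Finset.mem_inter.mpr ⟨hj1, hj2⟩⟩
        have h2' : (1 : ℝ) ≤ ((I a ∩ I i).card : ℝ) := by exact_mod_cast h2
        nlinarith [mul_nonneg hmi.le hwi]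
  have hlt : ∑ i ∈ T, m i < (t + 1) * γ := by
    have hIa : ((I a).card : ℝ) ≤ t := by exact_mod_cast hI a ha
    have ht' : (2 : ℝ) ≤ t := by exact_mod_cast ht
    rcases Nat.lt_or_ge (I a).card 2 with h2 | h2
    · have h3 : (I a).card = 1 := by omega
      rw [h3] at hmain
      push_cast at hmain
      nlinarith
    · have h3 : (2 : ℝ) ≤ ((I a).card : ℝ) := by exact_mod_cast h2
      nlinarith [mul_le_mul_of_nonneg_right hIa hγ.le, mul_pos hma (by linarith : (0:ℝ) < ((I a).card : ℝ) - 1)]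
  have hfin : (N : ℝ) * γ < (t * (t + 1)) * γ := by
    have ht' : (0 : ℝ) < t := by
      have : (2 : ℝ) ≤ t := by exact_mod_cast ht
      linarith
    calc (N : ℝ) * γ ≤ t * ∑ i ∈ T, m i := htot
      _ < t * ((t + 1) * γ) := by apply mul_lt_mul_of_pos_left hlt ht'
      _ = (t * (t + 1)) * γ := by ring
  have := lt_of_mul_lt_mul_right hfin hγ.le
  exact_mod_cast this

end Pool.Agent.Q110.StrongCol
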