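import Mathlib
import Pool.Agent.Helper325.BorsukUlam

set_option autoImplicit false

namespace Pool.Agent.Q110.StrongCol

open Finset

variable {n N : ℕ}

/-- Cut positions; the total length is `n`. -/
noncomputable def cut (n : ℕ) {N : ℕ} (x : Fin N → ℝ) (k : ℕ) : ℝ :=
  (n : ℝ) * ∑ i : Fin N, if i.val < k then |x i| else 0

theorem cut_mono (x : Fin N → ℝ) : Monotone (cut n x) := by
  intro k l hkl
  unfold cut
  apply mul_le_mul_of_nonneg_left _ (Nat.cast_nonneg n)
  apply Finset.sum_le_sum
  intro i _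
  split_ifs with h1 h2
  · exact le_rfl
  · omega
  · exact abs_nonneg _
  · exact le_rfl

theorem cut_zero (x : Fin N → ℝ) : cut n x 0 = 0 := by simp [cut]

theorem cut_top (x : Fin N → ℝ) (hx : ∑ i, |x i| = 1) : cut n x N = n := by
  unfold cut
  rw [Finset.sum_congr rfl (fun i _ => if_pos i.2), hx, mul_one]

theorem cut_succ (x : Fin N → ℝ) (i : Fin N) :
    cut n x (i.val + 1) = cut n x i.val + n * |x i| := by
  unfold cut
  rw [← mul_add]
  congr 1
  have h : ∀ j : Fin N, (if j.val < i.val + 1 then |x j| else 0) =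
      (if j.val < i.val then |x j| else 0) + (if j = i then |x j| else 0) := by
    intro j
    by_cases h1 : j = i
    · subst h1; simp
    · have h2 : j.val ≠ i.val := fun h => h1 (Fin.ext h)
      rw [if_neg h1, add_zero]
      by_cases h3 : j.val < i.val
      · rw [if_pos h3, if_pos (by omega)]
      · rw [if_neg h3, if_neg (by omega)]
  rw [Finset.sum_congr rfl (fun j _ => h j), Finset.sum_add_distrib, Finset.sum_ite_eq' univ i]
  simp

theorem cut_cont (k : ℕ) : Continuous (fun x : Fin N → ℝ => cut n x k) := by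
  unfold cut
  apply Continuous.mul continuous_const
  apply continuous_finsetSum
  intro i _
  split_ifs
  · exact (continuous_apply i).abs
  · exact continuous_const

theorem cut_neg (x : Fin N → ℝ) (k : ℕ) : cut n (-x) k = cut n x k := by
  simp [cut]

/-- First time of the colouring `c`. -/
noncomputable def lo [NeZero n] (c : Fin n → Fin N) (x : Fin N → ℝ) : ℝ :=
  max 0 (univ.sup' univ_nonempty (fun v : Fin n => cut n x (c v).val - (v.val : ℝ)))

/-- Last time of the colouring `c`. -/
noncomputable def hi [NeZero n] (c : Fin n → Fin N) (x : Fin N → ℝ) : ℝ :=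
  min 1 (univ.inf' univ_nonempty (fun v : Fin n => cut n x ((c v).val + 1) - (v.val : ℝ)))

/-- Amount of time for which the colouring is `c`. -/
noncomputable def ms [NeZero n] (c : Fin n → Fin N) (x : Fin N → ℝ) : ℝ :=
  max 0 (hi c x - lo c x)

theorem ms_cont [NeZero n] (c : Fin n → Fin N) : Continuous (ms c) := by
  unfold ms hi lo
  apply Continuous.max continuous_const
  apply Continuous.sub
  · apply Continuous.min continuous_const
    apply Continuous.finset_inf'_apply
    intro v _
    exact (cut_cont _).sub continuous_const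
  · apply Continuous.max continuous_const
    apply Continuous.finset_sup'_apply
    intro v _
    exact (cut_cont _).sub continuous_const

theorem ms_neg [NeZero n] (c : Fin n → Fin N) (x : Fin N → ℝ) : ms c (-x) = ms c x := by
  simp only [ms, hi, lo, cut_neg]

theorem ms_nonneg [NeZero n] (c : Fin n → Fin N) (x : Fin N → ℝ) : 0 ≤ ms c x :=
  le_max_left _ _

theorem ms_zero [NeZero n] (c : Fin n → Fin N) (x : Fin N → ℝ) (v : Fin n) (hx : x (c v) = 0) :
    ms c x = 0 := by
  unfold ms
  apply max_eq_left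
  have h1 : cut n x (c v).val - (v.val : ℝ) ≤ lo c x :=
    le_trans (Finset.le_sup' (fun v : Fin n => cut n x (c v).val - (v.val : ℝ)) (mem_univ v))
      (le_max_right _ _)
  have h2 : hi c x ≤ cut n x ((c v).val + 1) - (v.val : ℝ) :=
    le_trans (min_le_right _ _)
      (Finset.inf'_le (fun v : Fin n => cut n x ((c v).val + 1) - (v.val : ℝ)) (mem_univ v))
  have h3 := cut_succ (n := n) x (c v)
  rw [hx, abs_zero, mul_zero, add_zero] at h3
  linarith

theorem exists_col (x : Fin N → ℝ) (hx : ∑ i, |x i| = 1) (τ : ℝ) (h0 : 0 ≤ τ) (h1 : τ < 1) :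
    ∃ c : Fin n → Fin N, ∀ v : Fin n,
      cut n x (c v).val ≤ (v.val : ℝ) + τ ∧ (v.val : ℝ) + τ < cut n x ((c v).val + 1) := by
  have h : ∀ v : Fin n, ∃ j : Fin N, cut n x j.val ≤ (v.val : ℝ) + τ ∧
      (v.val : ℝ) + τ < cut n x (j.val + 1) := by
    intro v
    classical
    have hv : (v.val : ℝ) + 1 ≤ n := by exact_mod_cast v.2
    have hex : ∃ k : ℕ, (v.val : ℝ) + τ < cut n x k := ⟨N, by rw [cut_top x hx]; linarith⟩
    have hspec := Nat.find_spec hex
    have hle : Nat.find hex ≤ N := Nat.find_le (by rw [cut_top x hx]; linarith)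
    have hpos : 0 < Nat.find hex := by
      rcases Nat.eq_zero_or_pos (Nat.find hex) with h | h
      · rw [h, cut_zero] at hspec
        have : (0 : ℝ) ≤ v.val := Nat.cast_nonneg _
        linarith
      · exact h
    have hlt : Nat.find hex - 1 < Nat.find hex := by omega
    have hmin := Nat.find_min hex hlt
    refine ⟨⟨Nat.find hex - 1, by omega⟩, not_lt.mp hmin, ?_⟩
    have he : Nat.find hex - 1 + 1 = Nat.find hex := by omega
    dsimp only
    rw [he]; exact hspec
  choose c hc using h
  exact ⟨c, hc⟩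

theorem lo_le [NeZero n] (c : Fin n → Fin N) (x : Fin N → ℝ) (τ : ℝ) (h0 : 0 ≤ τ)
    (h : ∀ v : Fin n, cut n x (c v).val ≤ (v.val : ℝ) + τ) : lo c x ≤ τ := by
  unfold lo
  apply max_le h0
  rw [Finset.sup'_le_iff]
  intro v _
  have := h v
  linarith

theorem lt_hi [NeZero n] (c : Fin n → Fin N) (x : Fin N → ℝ) (τ : ℝ) (h1 : τ < 1)
    (h : ∀ v : Fin n, (v.val : ℝ) + τ < cut n x ((c v).val + 1)) : τ < hi c x := by
  unfold hi
  apply lt_min h1
  rw [Finset.lt_inf'_iff]
  intro v _
  have := h v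
  linarith

theorem exists_ms_pos [NeZero n] (x : Fin N → ℝ) (hx : ∑ i, |x i| = 1) :
    ∃ c : Fin n → Fin N, 0 < ms c x := by
  have h : ∀ τ : Set.Ico (0 : ℝ) 1, ∃ c : Fin n → Fin N, ∀ v : Fin n,
      cut n x (c v).val ≤ (v.val : ℝ) + τ.1 ∧ (v.val : ℝ) + τ.1 < cut n x ((c v).val + 1) :=
    fun τ => exists_col x hx τ.1 τ.2.1 τ.2.2
  choose C hC using h
  have : Infinite (Set.Ico (0 : ℝ) 1) := (Set.Ico_infinite (by norm_num)).to_subtype
  obtain ⟨p, q, hpq, hCe⟩ := Finite.exists_ne_map_eq_of_infinite C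
  have key : ∀ p q : Set.Ico (0 : ℝ) 1, p.1 < q.1 → C p = C q →
      ∃ c : Fin n → Fin N, 0 < ms c x := by
    intro p q hlt he
    refine ⟨C p, ?_⟩
    have h1 : lo (C p) x ≤ p.1 := lo_le _ _ _ p.2.1 (fun v => (hC p v).1)
    have h2 : q.1 < hi (C p) x := by
      rw [he]
      exact lt_hi _ _ _ q.2.2 (fun v => (hC q v).2)
    unfold ms
    apply lt_max_of_lt_right
    linarith
  rcases lt_trichotomy p.1 q.1 with hlt | heq | hlt
  · exact key p q hlt hCe
  · exact absurd (Subtype.ext heq) hpq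
  · exact key q p hlt hCe.symm

theorem lo_spec [NeZero n] (c : Fin n → Fin N) (x : Fin N → ℝ) (h : 0 < ms c x) :
    0 ≤ lo c x ∧ lo c x < 1 ∧ ∀ v : Fin n, cut n x (c v).val ≤ (v.val : ℝ) + lo c x ∧
      (v.val : ℝ) + lo c x < cut n x ((c v).val + 1) := by
  have hlt : lo c x < hi c x := by
    by_contra hcon
    unfold ms at h
    rw [max_eq_left (by linarith)] at h
    exact lt_irrefl _ h
  refine ⟨le_max_left _ _, lt_of_lt_of_le hlt (min_le_left _ _), fun v => ⟨?_, ?_⟩⟩
  · have h1 : cut n x (c v).val - (v.val : ℝ) ≤ lo c x :=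
      le_trans (Finset.le_sup' (fun v : Fin n => cut n x (c v).val - (v.val : ℝ)) (mem_univ v))
        (le_max_right _ _)
    linarith
  · have h2 : hi c x ≤ cut n x ((c v).val + 1) - (v.val : ℝ) :=
      le_trans (min_le_right _ _)
        (Finset.inf'_le (fun v : Fin n => cut n x ((c v).val + 1) - (v.val : ℝ)) (mem_univ v))
    linarith

theorem mono_of [NeZero n] (x : Fin N → ℝ) (a b : Fin n → Fin N) (ha : 0 < ms a x)
    (hb : 0 < ms b x) (v w : Fin n) (h : (v.val : ℝ) + lo a x ≤ (w.val : ℝ) + lo b x) :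
    a v ≤ b w := by
  have h1 := ((lo_spec a x ha).2.2 v).1
  have h2 := ((lo_spec b x hb).2.2 w).2
  by_contra hcon
  push Not at hcon
  have h3 : (b w).val + 1 ≤ (a v).val := hcon
  have h4 := cut_mono (n := n) x h3
  linarith

/-- The total time for which colour `i` belongs to the chosen set. -/
noncomputable def phi [NeZero n] (I : (Fin n → Fin N) → Finset (Fin N)) (i : Fin N)
    (x : Fin N → ℝ) : ℝ :=
  ∑ c : Fin n → Fin N, if i ∈ I c then ms c x else 0

theorem phi_cont [NeZero n] (I : (Fin n → Fin N) → Finset (Fin N)) (i : Fin N) :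
    Continuous (phi I i) := by
  unfold phi
  apply continuous_finsetSum
  intro c _
  split_ifs
  · exact ms_cont c
  · exact continuous_const

theorem phi_neg [NeZero n] (I : (Fin n → Fin N) → Finset (Fin N)) (i : Fin N) (x : Fin N → ℝ) :
    phi I i (-x) = phi I i x := by
  simp only [phi, ms_neg]

theorem phi_nonneg [NeZero n] (I : (Fin n → Fin N) → Finset (Fin N)) (i : Fin N)
    (x : Fin N → ℝ) : 0 ≤ phi I i x := by
  unfold phi
  apply Finset.sum_nonneg
  intro c _
  split_ifs
  · exact ms_nonneg c x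
  · exact le_rfl

theorem phi_zero [NeZero n] (I : (Fin n → Fin N) → Finset (Fin N))
    (hI : ∀ c, ∀ i ∈ I c, ∃ v, c v = i) (i : Fin N) (x : Fin N → ℝ) (hx : x i = 0) :
    phi I i x = 0 := by
  unfold phi
  apply Finset.sum_eq_zero
  intro c _
  split_ifs with h
  · obtain ⟨v, hv⟩ := hI c i h
    exact ms_zero c x v (by rw [hv]; exact hx)
  · rfl

/-- The odd function. -/
noncomputable def gg [NeZero n] (I : (Fin n → Fin N) → Finset (Fin N)) (i : Fin N)
    (x : Fin N → ℝ) : ℝ := if 0 ≤ x i then phi I i x else -phi I i x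

theorem gg_cont [NeZero n] (I : (Fin n → Fin N) → Finset (Fin N))
    (hI : ∀ c, ∀ i ∈ I c, ∃ v, c v = i) (i : Fin N) : Continuous (gg I i) := by
  unfold gg
  apply Continuous.if_le (phi_cont I i) (phi_cont I i).neg continuous_const (continuous_apply i)
  intro x hx
  rw [Pi.neg_apply, phi_zero I hI i x hx.symm, neg_zero]

theorem gg_neg [NeZero n] (I : (Fin n → Fin N) → Finset (Fin N))
    (hI : ∀ c, ∀ i ∈ I c, ∃ v, c v = i) (i : Fin N) (x : Fin N → ℝ) :
    gg I i (-x) = -gg I i x := by
  unfold gg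
  rw [phi_neg, Pi.neg_apply]
  rcases lt_trichotomy (x i) 0 with h | h | h
  · rw [if_pos (by linarith), if_neg (by linarith), neg_neg]
  · rw [phi_zero I hI i x h]; simp
  · rw [if_neg (by linarith), if_pos h.le]

theorem abs_gg [NeZero n] (I : (Fin n → Fin N) → Finset (Fin N)) (i : Fin N)
    (x : Fin N → ℝ) : |gg I i x| = phi I i x := by
  unfold gg
  split_ifs
  · exact abs_of_nonneg (phi_nonneg I i x)
  · rw [abs_neg]; exact abs_of_nonneg (phi_nonneg I i x)

/-- A position of the cuts for which all colours are chosen for the same amount of time. -/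
theorem exists_balanced (m : ℕ) [NeZero n] (I : (Fin n → Fin (m + 1)) → Finset (Fin (m + 1)))
    (hI : ∀ c, ∀ i ∈ I c, ∃ v, c v = i) (hne : ∀ c, (I c).Nonempty) :
    ∃ (x : Fin (m + 1) → ℝ) (γ : ℝ), 0 < γ ∧ (∑ i, |x i| = 1) ∧ ∀ i, phi I i x = γ := by
  obtain ⟨x, hxK, hx⟩ := Pool.Agent.Helper325.BorsukUlam.borsuk_ulam m
    (fun x k => gg I k.castSucc x - gg I k.succ x)
    (continuous_pi fun k => (gg_cont I hI _).sub (gg_cont I hI _))
    (by
      intro x
      funext k
      simp only [Pi.neg_apply]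
      rw [gg_neg I hI, gg_neg I hI]
      ring)
  have hx1 : ∑ i, |x i| = 1 := hxK
  have hconst : ∀ i : Fin (m + 1), gg I i x = gg I 0 x := by
    intro i
    induction i using Fin.induction with
    | zero => rfl
    | succ k ih =>
      have := congrFun hx k
      simp only [Pi.zero_apply] at this
      linarith
  have hphi : ∀ i, phi I i x = |gg I 0 x| := by
    intro i
    rw [← abs_gg, hconst i]
  refine ⟨x, |gg I 0 x|, ?_, hx1, hphi⟩
  obtain ⟨c, hc⟩ := exists_ms_pos (n := n) x hx1
  obtain ⟨i, hi⟩ := hne c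
  rw [← hphi i]
  unfold phi
  apply Finset.sum_pos' _ ⟨c, mem_univ c, by rw [if_pos hi]; exact hc⟩
  intro c' _
  split_ifs
  · exact ms_nonneg c' x
  · exact le_rfl

end Pool.Agent.Q110.StrongCol
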